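import Mathlib

/-!
# The fixed point of `1 → 12122121`, `2 → 2` is not `k`-automatic for any `k ≥ 2`

Let `p i` be the position of the `i`-th letter `1`. Then `3 p i = 7 i + Δ i`, where `Δ i` is the number
of digits `2` minus the number of digits `1` of `i` in base `4`, and the sequence of the gaps between
consecutive letters `1` is a Toeplitz sequence: long equal factors of it occur only at positions that
are congruent modulo a large power of `4`. For a `k`-automatic sequence the number of different aligned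
blocks of length `k ^ e` is bounded independently of `e`; this leads to a contradiction.
-/

set_option autoImplicit false

namespace Pool.Agent.Results.MP_ad6ded_lc.NotAutomatic

/-- The words `x₁ = 12`, `xₙ₊₁ = xₙ xₙ xₙᴿ xₙᴿ 2`, where `X n` is the word `xₙ₊₁`. -/
def X : ℕ → List ℕ
  | 0 => [1, 2]
  | n + 1 => X n ++ X n ++ (X n).reverse ++ (X n).reverse ++ [2]

/-- All the words are beginnings of the sequence `a`. -/
def HasBeginnings (a : ℕ → ℕ) : Prop :=
  ∀ (n i : ℕ) (h : i < (X n).length), a i = (X n)[i]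

/-- The `k`-kernel of a sequence. -/
def kernel (k : ℕ) (a : ℕ → ℕ) : Set (ℕ → ℕ) :=
  {b | ∃ e j : ℕ, j < k ^ e ∧ b = fun n => a (k ^ e * n + j)}

/-- A sequence is `k`-automatic if its `k`-kernel is finite. -/
def IsAutomatic (k : ℕ) (a : ℕ → ℕ) : Prop := (kernel k a).Finite

/-! ## The gaps and the positions -/

/-- The gaps between consecutive letters `1`. -/
def g (i : ℕ) : ℕ :=
  if i % 4 = 1 then 3 else if h : i % 4 = 3 then g (i / 4) else 2
termination_by i
decreasing_by omega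

theorem g_zero (i : ℕ) : g (4 * i) = 2 := by
  rw [g, if_neg (by omega), dif_neg (by omega)]

theorem g_one (i : ℕ) : g (4 * i + 1) = 3 := by
  rw [g, if_pos (by omega)]

theorem g_two (i : ℕ) : g (4 * i + 2) = 2 := by
  rw [g, if_neg (by omega), dif_neg (by omega)]

theorem g_three (i : ℕ) : g (4 * i + 3) = g i := by
  rw [g, if_neg (by omega), dif_pos (by omega), show (4 * i + 3) / 4 = i by omega]

theorem g_cases (i : ℕ) : g i = 2 ∨ g i = 3 := by
  induction i using Nat.strong_induction_on with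
  | _ i ih =>
    rw [g]
    split_ifs with h1 h2
    · exact Or.inr rfl
    · exact ih (i / 4) (by omega)
    · exact Or.inl rfl

/-- The positions of the letters `1`. -/
def p (i : ℕ) : ℕ := ∑ j ∈ Finset.range i, g j

theorem p_zero : p 0 = 0 := rfl

theorem p_succ (i : ℕ) : p (i + 1) = p i + g i := Finset.sum_range_succ _ _

theorem p_four (i : ℕ) : p (4 * i) = p i + 7 * i := by
  induction i with
  | zero => rfl
  | succ i ih =>
    rw [show 4 * (i + 1) = 4 * i + 1 + 1 + 1 + 1 by ring, p_succ, p_succ, p_succ, p_succ, ih,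
      g_zero, g_one, show 4 * i + 1 + 1 = 4 * i + 2 by ring, g_two,
      show 4 * i + 2 + 1 = 4 * i + 3 by ring, g_three, p_succ]
    ring

theorem p_strictMono : StrictMono p := strictMono_nat_of_lt_succ fun i => by
  rw [p_succ]
  rcases g_cases i with h | h <;> omega

theorem two_mul_le_p (i : ℕ) : 2 * i ≤ p i := by
  induction i with
  | zero => simp
  | succ i ih =>
    rw [p_succ]
    rcases g_cases i with h | h <;> omega

/-- The correction term. -/
def Δ (i : ℕ) : ℤ := 3 * p i - 7 * i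

theorem Δ_zero : Δ 0 = 0 := by simp [Δ, p_zero]

theorem Δ_four (i : ℕ) : Δ (4 * i) = Δ i := by
  unfold Δ
  rw [p_four]
  push_cast
  ring

theorem Δ_four_one (i : ℕ) : Δ (4 * i + 1) = Δ i - 1 := by
  unfold Δ
  rw [p_succ, p_four, g_zero]
  push_cast
  ring

theorem Δ_four_two (i : ℕ) : Δ (4 * i + 2) = Δ i + 1 := by
  unfold Δ
  rw [show 4 * i + 2 = 4 * i + 1 + 1 by ring, p_succ, p_succ, p_four, g_zero, g_one]
  push_cast
  ring

theorem Δ_four_three (i : ℕ) : Δ (4 * i + 3) = Δ i := by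
  unfold Δ
  rw [show 4 * i + 3 = 4 * i + 1 + 1 + 1 by ring, p_succ, p_succ, p_succ, p_four, g_zero, g_one,
    show 4 * i + 1 + 1 = 4 * i + 2 by ring, g_two]
  push_cast
  ring

theorem four_cases (i : ℕ) : ∃ j, i = 4 * j ∨ i = 4 * j + 1 ∨ i = 4 * j + 2 ∨ i = 4 * j + 3 :=
  ⟨i / 4, by omega⟩

theorem Δ_add (m a b : ℕ) (hb : b < 4 ^ m) : Δ (4 ^ m * a + b) = Δ a + Δ b := by
  induction m generalizing b with
  | zero =>
    have : b = 0 := by simpa using hb
    subst this
    simp [Δ_zero]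
  | succ m ih =>
    obtain ⟨b', h⟩ := four_cases b
    have hb' : b' < 4 ^ m := by rw [pow_succ] at hb; omega
    have h4 : 4 ^ (m + 1) * a = 4 * (4 ^ m * a) := by rw [pow_succ]; ring
    rcases h with h | h | h | h
    · rw [h, h4, ← mul_add, Δ_four, Δ_four, ih b' hb']
    · rw [h, h4, ← add_assoc, ← mul_add, Δ_four_one, Δ_four_one, ih b' hb']; ring
    · rw [h, h4, ← add_assoc, ← mul_add, Δ_four_two, Δ_four_two, ih b' hb']; ring
    · rw [h, h4, ← add_assoc, ← mul_add, Δ_four_three, Δ_four_three, ih b' hb']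

theorem abs_Δ_le (m i : ℕ) (hi : i < 4 ^ m) : |Δ i| ≤ m := by
  induction m generalizing i with
  | zero =>
    have : i = 0 := by simpa using hi
    subst this
    simp [Δ_zero]
  | succ m ih =>
    obtain ⟨j, h⟩ := four_cases i
    have hj : j < 4 ^ m := by rw [pow_succ] at hi; omega
    have h1 := abs_le.1 (ih j hj)
    rw [abs_le]
    push_cast
    rcases h with h | h | h | h
    · rw [h, Δ_four]; constructor <;> linarith [h1.1, h1.2]
    · rw [h, Δ_four_one]; constructor <;> linarith [h1.1, h1.2]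
    · rw [h, Δ_four_two]; constructor <;> linarith [h1.1, h1.2]
    · rw [h, Δ_four_three]; constructor <;> linarith [h1.1, h1.2]

theorem abs_Δ_le_self (i : ℕ) : |Δ i| ≤ i := abs_Δ_le i i (Nat.lt_pow_self (by norm_num))

theorem Δ_pow_sub_one (m : ℕ) : Δ (4 ^ m - 1) = 0 := by
  induction m with
  | zero => simp [Δ_zero]
  | succ m ih =>
    have h : 0 < 4 ^ m := by positivity
    rw [show 4 ^ (m + 1) - 1 = 4 * (4 ^ m - 1) + 3 by rw [pow_succ]; omega, Δ_four_three, ih]

/-! ## Synchronization -/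

theorem sync (m : ℕ) : ∀ α β : ℕ, (∀ i < 22 * 4 ^ m - 2, g (α + i) = g (β + i)) →
    α % 4 ^ m = β % 4 ^ m := by
  induction m with
  | zero => intro α β _; simp [Nat.mod_one]
  | succ m ih =>
    intro α β h
    have hpos : 0 < 4 ^ m := by positivity
    have hpow : 4 ^ (m + 1) = 4 * 4 ^ m := by rw [pow_succ]; ring
    have hmod : α % 4 = β % 4 := by
      by_contra hne
      rcases Nat.even_or_odd (α + β) with hpar | hpar
      · -- the residues differ by two
        obtain ⟨i₀, hi₀, hα⟩ : ∃ i₀ < 4, (α + i₀) % 4 = 1 := ⟨(5 - α % 4) % 4, by omega, by omega⟩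
        have hβ : (β + i₀) % 4 = 3 := by
          obtain ⟨c, hc⟩ := hpar
          omega
        obtain ⟨A, hA⟩ : ∃ A, α + i₀ = 4 * A + 1 := ⟨(α + i₀) / 4, by omega⟩
        obtain ⟨B, hB⟩ : ∃ B, β + i₀ = 4 * B + 3 := ⟨(β + i₀) / 4, by omega⟩
        obtain ⟨l, hl, hBl⟩ : ∃ l < 4, (B + l) % 4 = 0 := ⟨(4 - B % 4) % 4, by omega, by omega⟩
        have h1 := h (i₀ + 4 * l) (by omega)
        rw [show α + (i₀ + 4 * l) = 4 * (A + l) + 1 by omega,
          show β + (i₀ + 4 * l) = 4 * (B + l) + 3 by omega, g_one, g_three] at h1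
        obtain ⟨B', hB'⟩ : ∃ B', B + l = 4 * B' := ⟨(B + l) / 4, by omega⟩
        rw [hB', g_zero] at h1
        omega
      · obtain ⟨i₀, hi₀, hα⟩ : ∃ i₀ < 4, (α + i₀) % 4 = 1 := ⟨(5 - α % 4) % 4, by omega, by omega⟩
        have hβ : (β + i₀) % 4 = 0 ∨ (β + i₀) % 4 = 2 := by
          obtain ⟨c, hc⟩ := hpar
          omega
        obtain ⟨A, hA⟩ : ∃ A, α + i₀ = 4 * A + 1 := ⟨(α + i₀) / 4, by omega⟩
        have h1 := h i₀ (by omega)
        rw [hA, g_one] at h1
        rcases hβ with hβ | hβ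
        · obtain ⟨B, hB⟩ : ∃ B, β + i₀ = 4 * B := ⟨(β + i₀) / 4, by omega⟩
          rw [hB, g_zero] at h1
          omega
        · obtain ⟨B, hB⟩ : ∃ B, β + i₀ = 4 * B + 2 := ⟨(β + i₀) / 4, by omega⟩
          rw [hB, g_two] at h1
          omega
    obtain ⟨i₀, hi₀, hα⟩ : ∃ i₀ < 4, (α + i₀) % 4 = 3 := ⟨(7 - α % 4) % 4, by omega, by omega⟩
    obtain ⟨A, hA⟩ : ∃ A, α + i₀ = 4 * A + 3 := ⟨(α + i₀) / 4, by omega⟩
    obtain ⟨B, hB⟩ : ∃ B, β + i₀ = 4 * B + 3 := ⟨(β + i₀) / 4, by omega⟩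
    have h2 := ih A B fun l hl => by
      have h1 := h (i₀ + 4 * l) (by omega)
      rw [show α + (i₀ + 4 * l) = 4 * (A + l) + 3 by omega,
        show β + (i₀ + 4 * l) = 4 * (B + l) + 3 by omega, g_three, g_three] at h1
      exact h1
    have h3 : 4 * A ≡ 4 * B [MOD 4 ^ (m + 1)] := by
      rw [hpow]
      exact Nat.ModEq.mul_left' 4 h2
    have h4 : α + i₀ ≡ β + i₀ [MOD 4 ^ (m + 1)] := by
      rw [hA, hB]
      exact Nat.ModEq.add_right 3 h3
    exact Nat.ModEq.add_right_cancel' i₀ h4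

/-! ## Aligned blocks -/

/-- The aligned blocks of length `L` with the numbers `n` and `n'` are equal. -/
def EqBlock (L n n' : ℕ) : Prop := ∀ j < L, (∃ i, p i = n * L + j) ↔ (∃ i, p i = n' * L + j)

theorem exists_p_ge (x : ℕ) : ∃ i, x ≤ p i := ⟨x, by have := two_mul_le_p x; omega⟩

/-- The index of the first letter `1` at or after the position `x`. -/
def first (x : ℕ) : ℕ := Nat.find (exists_p_ge x)

theorem le_p_first (x : ℕ) : x ≤ p (first x) := Nat.find_spec (exists_p_ge x)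

theorem lt_of_lt_first {x i : ℕ} (h : i < first x) : p i < x :=
  not_le.1 (Nat.find_min (exists_p_ge x) h)

theorem first_le {x i : ℕ} (h : x ≤ p i) : first x ≤ i := Nat.find_min' (exists_p_ge x) h

theorem p_first_le (x : ℕ) : p (first x) ≤ x + 2 := by
  rcases Nat.eq_zero_or_pos (first x) with h | h
  · rw [h, p_zero]
    exact Nat.zero_le _
  · obtain ⟨i, hi⟩ : ∃ i, first x = i + 1 := ⟨first x - 1, by omega⟩
    have h1 := lt_of_lt_first (x := x) (i := i) (by omega)
    rw [hi, p_succ]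
    rcases g_cases i with h2 | h2 <;> omega

theorem EqBlock.symm {L n n' : ℕ} (h : EqBlock L n n') : EqBlock L n' n :=
  fun j hj => (h j hj).symm

theorem offset_le {L n n' : ℕ} (hL : 2 < L) (h : EqBlock L n n') :
    p (first (n' * L)) - n' * L ≤ p (first (n * L)) - n * L := by
  have h1 := le_p_first (n * L)
  have h2 := p_first_le (n * L)
  obtain ⟨i, hi⟩ := (h (p (first (n * L)) - n * L) (by omega)).1 ⟨first (n * L), by omega⟩
  have h3 : first (n' * L) ≤ i := first_le (by omega)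
  have h4 := p_strictMono.monotone h3
  omega

theorem offset_eq {L n n' : ℕ} (hL : 2 < L) (h : EqBlock L n n') :
    p (first (n * L)) - n * L = p (first (n' * L)) - n' * L :=
  le_antisymm (offset_le hL h.symm) (offset_le hL h)

/-- In equal blocks the gaps are equal. -/
theorem gaps_eq {L n n' : ℕ} (hL : 2 < L) (h : EqBlock L n n') (i : ℕ) :
    (3 * i + 4 < L + 3 → p (first (n * L) + i) - n * L = p (first (n' * L) + i) - n' * L) ∧
      (3 * i + 4 < L → g (first (n * L) + i) = g (first (n' * L) + i)) := by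
  have hle : ∀ (n i : ℕ), p (first (n * L) + i) ≤ n * L + 2 + 3 * i ∧
      n * L ≤ p (first (n * L) + i) := by
    intro n i
    induction i with
    | zero => exact ⟨by have := p_first_le (n * L); simpa using this, le_p_first _⟩
    | succ i ih =>
      rw [← add_assoc, p_succ]
      rcases g_cases (first (n * L) + i) with h2 | h2 <;> omega
  have hiff : ∀ i, (∃ i', p i' = p i + 2) ↔ g i = 2 := by
    intro i
    constructor
    · rintro ⟨i', hi'⟩
      have h1 : i < i' := p_strictMono.lt_iff_lt.1 (by omega)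
      have h2 := p_strictMono.monotone (Nat.succ_le_of_lt h1)
      rw [Nat.succ_eq_add_one, p_succ] at h2
      rcases g_cases i with h3 | h3 <;> omega
    · intro h1
      exact ⟨i + 1, by rw [p_succ, h1]⟩
  have hstep : ∀ i, 3 * i + 4 < L →
      p (first (n * L) + i) - n * L = p (first (n' * L) + i) - n' * L →
      g (first (n * L) + i) = g (first (n' * L) + i) := by
    intro i hi he
    have h1 := hle n i
    have h2 := hle n' i
    have e1 : n * L + (p (first (n * L) + i) - n * L + 2) = p (first (n * L) + i) + 2 := by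
      clear h hiff hle
      omega
    have e2 : n' * L + (p (first (n * L) + i) - n * L + 2) = p (first (n' * L) + i) + 2 := by
      clear h hiff hle
      omega
    have h3 := h (p (first (n * L) + i) - n * L + 2) (by clear h hiff hle; omega)
    rw [e1, e2, hiff, hiff] at h3
    rcases g_cases (first (n * L) + i) with h4 | h4 <;>
      rcases g_cases (first (n' * L) + i) with h5 | h5 <;> simp_all
  induction i with
  | zero =>
    have h0 := offset_eq hL h
    exact ⟨fun _ => h0, fun hi => hstep 0 hi h0⟩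
  | succ i ih =>
    have h1 : 3 * (i + 1) + 4 < L + 3 →
        p (first (n * L) + (i + 1)) - n * L = p (first (n' * L) + (i + 1)) - n' * L := by
      intro hi
      have h2 := ih.1 (by omega)
      have h3 := ih.2 (by omega)
      have h4 := hle n i
      have h5 := hle n' i
      rw [← add_assoc, ← add_assoc, p_succ, p_succ, h3]
      omega
    exact ⟨h1, fun hi => hstep (i + 1) hi (h1 (by omega))⟩

theorem first_mod {L n n' m : ℕ} (hL : 100 * 4 ^ m ≤ L) (h : EqBlock L n n') :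
    first (n * L) % 4 ^ m = first (n' * L) % 4 ^ m := by
  have hpos : 0 < 4 ^ m := by positivity
  exact sync m _ _ fun i hi => (gaps_eq (by omega) h i).2 (by omega)

/-! ## Location -/

/-- The least index whose position is large. -/
def D (T : ℤ) : ℕ := Nat.find (⟨T.toNat, by
  have := two_mul_le_p T.toNat
  omega⟩ : ∃ i, T ≤ 3 * (p i : ℤ))

theorem D_spec (T : ℤ) : T ≤ 3 * (p (D T) : ℤ) := Nat.find_spec (_ : ∃ i, T ≤ 3 * (p i : ℤ))

theorem D_min {T : ℤ} {i : ℕ} (h : i < D T) : 3 * (p i : ℤ) < T :=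
  not_le.1 (Nat.find_min (_ : ∃ i, T ≤ 3 * (p i : ℤ)) h)

theorem D_le {T : ℤ} {i : ℕ} (h : T ≤ 3 * (p i : ℤ)) : D T ≤ i :=
  Nat.find_min' (_ : ∃ i, T ≤ 3 * (p i : ℤ)) h

theorem D_pos {T : ℤ} (hT : 0 < T) : 0 < D T := by
  by_contra h
  have h1 := D_spec T
  rw [show D T = 0 by omega, p_zero] at h1
  simp at h1
  omega

theorem D_lt_D {T T' : ℤ} (hT : 0 < T) (h : T + 9 ≤ T') : D T < D T' := by
  by_contra hcon
  push Not at hcon
  have h1 := D_spec T'
  have h2 := D_pos hT
  obtain ⟨i, hi⟩ : ∃ i, D T = i + 1 := ⟨D T - 1, by omega⟩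
  have h3 := D_min (T := T) (i := i) (by omega)
  have h4 := p_strictMono.monotone hcon
  rw [hi, p_succ] at h4
  rcases g_cases i with h5 | h5 <;> omega

theorem D_lt_pow {T : ℤ} {m : ℕ} (hT : T ≤ 7 * 4 ^ m - 7) : D T < 4 ^ m := by
  have hpos : 0 < 4 ^ m := by positivity
  have h1 : 3 * (p (4 ^ m - 1) : ℤ) = 7 * 4 ^ m - 7 := by
    have h2 := Δ_pow_sub_one m
    unfold Δ at h2
    have h3 : ((4 ^ m - 1 : ℕ) : ℤ) = 4 ^ m - 1 := by
      rw [Nat.cast_sub (by omega)]
      push_cast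
      ring
    rw [h3] at h2
    linarith
  have := D_le (T := T) (i := 4 ^ m - 1) (by rw [h1]; exact hT)
  omega

/-- The location of the first letter `1` of a block. -/
theorem location {m b x : ℕ} {T : ℤ} (h : 3 * (x : ℤ) = 7 * 4 ^ m * b + Δ b + T) (h0 : 0 < T)
    (h1 : T ≤ 7 * 4 ^ m - 7) : first x % 4 ^ m = D T := by
  have hlt := D_lt_pow h1
  have hp : ∀ c < 4 ^ m, 3 * (p (4 ^ m * b + c) : ℤ) = 7 * 4 ^ m * b + Δ b + 3 * p c := by
    intro c hc
    have h2 := Δ_add m b c hc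
    have h3 : Δ (4 ^ m * b + c) = 3 * p (4 ^ m * b + c) - 7 * ((4 ^ m * b + c : ℕ) : ℤ) := rfl
    have h4 : Δ c = 3 * p c - 7 * (c : ℤ) := rfl
    push_cast at h3
    linarith
  have e1 : first x ≤ 4 ^ m * b + D T := by
    refine first_le ?_
    have h2 := hp _ hlt
    have h3 := D_spec T
    have h4 : (x : ℤ) ≤ p (4 ^ m * b + D T) := by linarith
    exact_mod_cast h4
  have e2 : 4 ^ m * b + D T ≤ first x := by
    by_contra hcon
    push Not at hcon
    have hD := D_pos h0
    obtain ⟨c, hc⟩ : ∃ c, D T = c + 1 := ⟨D T - 1, by omega⟩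
    have h2 := hp c (by omega)
    have h3 := D_min (T := T) (i := c) (by omega)
    have h4 : first x ≤ 4 ^ m * b + c := by omega
    have h5 := p_strictMono.monotone h4
    have h6 := le_p_first x
    have h7 : (x : ℤ) ≤ p (4 ^ m * b + c) := by exact_mod_cast h6.trans h5
    linarith
  rw [le_antisymm e1 e2, Nat.mul_add_mod, Nat.mod_eq_of_lt hlt]

/-! ## Multiples with a negative correction term -/

theorem exists_multiple {u : ℕ} (hu : 1 ≤ u) : ∃ W c d : ℕ, u ∣ W ∧ W < 4 ^ c ∧ 1 ≤ d ∧ d ≤ u ∧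
    Δ W = - d := by
  set R : ℕ → ℕ := fun c => ∑ i ∈ Finset.range c, 4 ^ i with hR
  have hRs : ∀ c, R (c + 1) = 4 * R c + 1 := by
    intro c
    induction c with
    | zero => rfl
    | succ c ih =>
      have e1 : R (c + 1 + 1) = R (c + 1) + 4 ^ (c + 1) := Finset.sum_range_succ _ _
      have e2 : R (c + 1) = R c + 4 ^ c := Finset.sum_range_succ _ _
      rw [e1, ih, pow_succ]
      omega
  have hRΔ : ∀ c, Δ (R c) = - c := by
    intro c
    induction c with
    | zero => exact Δ_zero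
    | succ c ih =>
      rw [hRs, Δ_four_one, ih]
      push_cast
      ring
  have hRlt : ∀ c, R c < 4 ^ c := by
    intro c
    induction c with
    | zero => simp [R]
    | succ c ih =>
      rw [hRs, pow_succ]
      omega
  have hmaps : ∀ c ∈ Finset.range (u + 1), R c % u ∈ Finset.range u := fun c _ =>
    Finset.mem_range.2 (Nat.mod_lt _ hu)
  obtain ⟨c, hc, c', hc', hne, heq⟩ := Finset.exists_ne_map_eq_of_card_lt_of_maps_to
    (by simp) hmaps
  wlog hlt : c < c' generalizing c c'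
  · exact this c' hc' c hc hne.symm heq.symm (by omega)
  rw [Finset.mem_range] at hc hc'
  obtain ⟨d, rfl⟩ := Nat.exists_eq_add_of_lt hlt
  have hsum : ∀ d, R (c + d) = R c + 4 ^ c * R d := by
    intro d
    induction d with
    | zero => simp [R]
    | succ d ih =>
      have e1 : R (c + d + 1) = R (c + d) + 4 ^ (c + d) := Finset.sum_range_succ _ _
      have e2 : R (d + 1) = R d + 4 ^ d := Finset.sum_range_succ _ _
      rw [← add_assoc, e1, e2, ih, pow_add]
      ring
  refine ⟨4 ^ c * R (d + 1), c + (d + 1), d + 1, ?_, ?_, by omega, by omega, ?_⟩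
  · have h1 : (R c) ≡ (R (c + (d + 1))) [MOD u] := heq
    have h2 := (Nat.modEq_iff_dvd' (by rw [hsum]; exact Nat.le_add_right _ _)).1 h1
    rw [hsum, Nat.add_sub_cancel_left] at h2
    exact h2
  · rw [pow_add]
    exact Nat.mul_lt_mul_of_pos_left (hRlt _) (by positivity)
  · have h1 := Δ_add c (R (d + 1)) 0 (by positivity)
    rw [add_zero, Δ_zero, add_zero, hRΔ] at h1
    exact h1

theorem Δ_copies {W c : ℕ} (hW : W < 4 ^ c) (N : ℕ) :
    Δ (W * ∑ l ∈ Finset.range N, 4 ^ (l * c)) = N * Δ W := by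
  induction N with
  | zero => simp [Δ_zero]
  | succ N ih =>
    have h1 : W * ∑ l ∈ Finset.range (N + 1), 4 ^ (l * c) =
        4 ^ c * (W * ∑ l ∈ Finset.range N, 4 ^ (l * c)) + W := by
      rw [Finset.sum_range_succ', mul_add, zero_mul, pow_zero, mul_one, Finset.mul_sum,
        Finset.mul_sum, Finset.mul_sum]
      congr 1
      refine Finset.sum_congr rfl fun l _ => ?_
      rw [add_mul, one_mul, pow_add]
      ring
    rw [h1, Δ_add _ _ _ hW, ih]
    push_cast
    ring

/-! ## The main lemma -/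

/-- A family of multiples of `L` whose remainders are well spaced has no two equal blocks. -/
theorem no_eqBlock {m L S : ℕ} (hL : 100 * 4 ^ m ≤ L) (nn b : ℕ → ℕ) (T : ℕ → ℤ)
    (hx : ∀ i ≤ S, 3 * ((nn i * L : ℕ) : ℤ) = 7 * 4 ^ m * b i + Δ (b i) + T i)
    (h0 : ∀ i ≤ S, 0 < T i) (h1 : ∀ i ≤ S, T i ≤ 7 * 4 ^ m - 7)
    (hT : ∀ i i', i < i' → i' ≤ S → T i + 9 ≤ T i' ∨ T i' + 9 ≤ T i) :
    ∀ i i', i < i' → i' ≤ S → ¬ EqBlock L (nn i) (nn i') := by
  intro i i' hlt hle h
  have e := first_mod hL h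
  rw [location (hx i (by omega)) (h0 i (by omega)) (h1 i (by omega)),
    location (hx i' hle) (h0 i' hle) (h1 i' hle)] at e
  rcases hT i i' hlt hle with h2 | h2
  · have := D_lt_D (h0 i (by omega)) h2
    omega
  · have := D_lt_D (h0 i' hle) h2
    omega

/-- Among any `S + 1` aligned blocks of length `L` there are two equal ones. -/
def Few (L S : ℕ) : Prop := ∀ nn : ℕ → ℕ, ∃ i i', i < i' ∧ i' ≤ S ∧ EqBlock L (nn i) (nn i')

theorem main_lemma (S : ℕ) : ∃ m₀ : ℕ, ∀ m ≥ m₀, ∀ L, 100 * 4 ^ m ≤ L → L < 400 * 4 ^ m →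
    ¬ Few L S := by
  obtain ⟨U, hU⟩ : ∃ U : ℕ, U = 200 * S := ⟨_, rfl⟩
  obtain ⟨A, hA⟩ : ∃ A : ℕ, A = U + 8 := ⟨_, rfl⟩
  refine ⟨4 ^ (A + S) * (2 * (U + 2)) + 9 * (S + 1) * (U + 1) + U + 16, ?_⟩
  intro m hm L hL1 hL2 hF
  -- estimates
  obtain ⟨K, hK⟩ : ∃ K : ℕ, K = 4 ^ (A + S) * (2 * (U + 2)) + 9 * (S + 1) * (U + 1) + U + 16 :=
    ⟨_, rfl⟩
  rw [← hK] at hm
  have hK2 : K ≤ 2 ^ m := (hm.trans (Nat.lt_two_pow_self).le)
  have hm2 : m ≤ 2 ^ m := Nat.lt_two_pow_self.le
  have h4 : (4 : ℕ) ^ m = 2 ^ m * 2 ^ m := by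
    rw [← mul_pow]
    norm_num
  have hKm : K * 2 ^ m ≤ 4 ^ m := by
    rw [h4]
    exact Nat.mul_le_mul_right _ hK2
  have h2m : 1 ≤ 2 ^ m := Nat.one_le_two_pow
  have hest1 : 4 ^ (A + S) * (2 * (m + U + 1)) + U + 8 ≤ 4 ^ m := by
    refine le_trans ?_ hKm
    rw [hK]
    have e1 : m + U + 1 ≤ (U + 2) * 2 ^ m := by nlinarith
    have e2 : 4 ^ (A + S) * (2 * (m + U + 1)) ≤ 4 ^ (A + S) * (2 * ((U + 2) * 2 ^ m)) :=
      Nat.mul_le_mul_left _ (Nat.mul_le_mul_left _ e1)
    have e3 : (4 ^ (A + S) * (2 * (U + 2)) + 9 * (S + 1) * (U + 1) + U + 16) * 2 ^ m =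
      4 ^ (A + S) * (2 * ((U + 2) * 2 ^ m)) + (9 * (S + 1) * (U + 1) + U + 16) * 2 ^ m := by ring
    rw [e3]
    have e4 : U + 8 ≤ (9 * (S + 1) * (U + 1) + U + 16) * 2 ^ m := by nlinarith
    omega
  have hest2 : 9 * (S + 1) * U + 7 ≤ 4 ^ m := by
    refine le_trans ?_ hKm
    rw [hK]
    have e1 : 9 * (S + 1) * U + 7 ≤ 4 ^ (A + S) * (2 * (U + 2)) + 9 * (S + 1) * (U + 1) + U + 16 := by
      have : 9 * (S + 1) * U ≤ 9 * (S + 1) * (U + 1) := Nat.mul_le_mul_left _ (by omega)
      have h0 : 0 ≤ 4 ^ (A + S) * (2 * (U + 2)) := Nat.zero_le _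
      omega
    exact e1.trans (Nat.le_mul_of_pos_right _ (by positivity))
  have hpos4 : 0 < 4 ^ m := by positivity
  -- two equal blocks
  obtain ⟨n₀, n₁, hn, hnS, hEq⟩ := hF id
  simp only [id] at hEq
  obtain ⟨h, rfl⟩ : ∃ h, n₁ = n₀ + h := ⟨n₁ - n₀, by omega⟩
  have hh : 1 ≤ h := by omega
  have hhS : h ≤ S := by omega
  obtain ⟨α, hα⟩ : ∃ α, α = first (n₀ * L) := ⟨_, rfl⟩
  obtain ⟨β, hβ⟩ : ∃ β, β = first ((n₀ + h) * L) := ⟨_, rfl⟩
  have hmod := first_mod hL1 hEq
  have hoff := offset_eq (by omega) hEq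
  have hleα := le_p_first (n₀ * L)
  have hleβ := le_p_first ((n₀ + h) * L)
  have hleβ' := p_first_le ((n₀ + h) * L)
  rw [← hα, ← hβ] at hmod hoff
  rw [← hα] at hleα
  rw [← hβ] at hleβ hleβ'
  have hhL : (n₀ + h) * L = n₀ * L + h * L := by ring
  rw [hhL] at hoff hleβ hleβ'
  have hpβ : p β = p α + h * L := by omega
  have hLpos : 0 < h * L := Nat.mul_pos hh (by omega)
  have hαβ : α < β := p_strictMono.lt_iff_lt.1 (by omega)
  obtain ⟨u, hu⟩ : ∃ u, β = α + 4 ^ m * u := by
    have h1 : α ≡ β [MOD 4 ^ m] := hmod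
    obtain ⟨u, hu⟩ := (Nat.modEq_iff_dvd' hαβ.le).1 h1
    exact ⟨u, by omega⟩
  have hu1 : 1 ≤ u := by
    rcases Nat.eq_zero_or_pos u with h1 | h1
    · rw [h1] at hu
      omega
    · exact h1
  have hgrow : ∀ i d, p i + 2 * d ≤ p (i + d) := by
    intro i d
    induction d with
    | zero => simp
    | succ d ih =>
      rw [← add_assoc, p_succ]
      rcases g_cases (i + d) with h2 | h2 <;> omega
  have huU : u ≤ U := by
    have h1 := hgrow α (4 ^ m * u)
    rw [← hu, hpβ] at h1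
    have h2 : h * L ≤ S * (400 * 4 ^ m) := Nat.mul_le_mul hhS hL2.le
    have h3 : 4 ^ m * u ≤ 4 ^ m * U := by
      rw [hU]
      have : S * (400 * 4 ^ m) = 2 * (4 ^ m * (200 * S)) := by ring
      omega
    exact Nat.le_of_mul_le_mul_left h3 hpos4
  -- the bound for the corrections
  have hβlt : β < 4 ^ (m + U + 1) := by
    have h1 := two_mul_le_p β
    have h2 : (n₀ + h) * L ≤ S * (400 * 4 ^ m) := Nat.mul_le_mul hnS hL2.le
    rw [hhL] at h2
    have h3 : S * (400 * 4 ^ m) = 2 * (4 ^ m * (200 * S)) := by ring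
    have h4 : β ≤ 4 ^ m * U + 1 := by rw [hU]; omega
    have h5 : U + 1 < 4 ^ (U + 1) := Nat.lt_pow_self (by norm_num)
    have h6 : 4 ^ m * (U + 1) < 4 ^ m * 4 ^ (U + 1) := Nat.mul_lt_mul_of_pos_left h5 hpos4
    rw [← pow_add, ← add_assoc] at h6
    nlinarith
  have hΔβ := abs_le.1 (abs_Δ_le _ β hβlt)
  have hΔα := abs_le.1 (abs_Δ_le _ α (hαβ.trans hβlt))
  obtain ⟨r, hr⟩ : ∃ r, r = Δ β - Δ α := ⟨_, rfl⟩
  have hrle : |r| ≤ 2 * (m + U + 1) := by
    rw [abs_le, hr]
    push_cast at hΔβ hΔα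
    constructor <;> linarith [hΔβ.1, hΔβ.2, hΔα.1, hΔα.2]
  have hkey : 3 * ((h * L : ℕ) : ℤ) = 7 * 4 ^ m * u + r := by
    have e1 : Δ β = 3 * p β - 7 * (β : ℤ) := rfl
    have e2 : Δ α = 3 * p α - 7 * (α : ℤ) := rfl
    have e3 : (β : ℤ) = α + 4 ^ m * u := by exact_mod_cast hu
    have e4 : (p β : ℤ) = p α + ((h * L : ℕ) : ℤ) := by exact_mod_cast hpβ
    rw [hr, e1, e2, e3, e4]
    ring
  have hkeyj : ∀ j : ℕ, 3 * ((j * h * L : ℕ) : ℤ) = 7 * 4 ^ m * (u * j) + j * r := by
    intro j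
    have e1 : ((j * h * L : ℕ) : ℤ) = j * ((h * L : ℕ) : ℤ) := by
      rw [mul_assoc]
      push_cast
      ring
    rw [e1, show 3 * ((j : ℤ) * ((h * L : ℕ) : ℤ)) = j * (3 * ((h * L : ℕ) : ℤ)) by ring, hkey]
    ring
  have hpowA : ∀ i, (U : ℤ) + 8 ≤ 4 ^ (A + i) := by
    intro i
    have h1 : A < 4 ^ A := Nat.lt_pow_self (by norm_num)
    have h2 : 4 ^ A ≤ 4 ^ (A + i) := Nat.pow_le_pow_right (by norm_num) (by omega)
    have h3 : U + 8 ≤ 4 ^ (A + i) := by omega
    exact_mod_cast h3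
  have hpowS : ∀ i ≤ S, (4 : ℤ) ^ (A + i) ≤ 4 ^ (A + S) := by
    intro i hi
    exact pow_le_pow_right₀ (by norm_num) (by omega)
  have hstep : ∀ i i', i < i' → (4 : ℤ) ^ (A + i) + 9 ≤ 4 ^ (A + i') := by
    intro i i' hii
    have h1 : (4 : ℤ) ^ (A + i + 1) ≤ 4 ^ (A + i') := pow_le_pow_right₀ (by norm_num) (by omega)
    have h2 := hpowA i
    rw [pow_succ] at h1
    have : (0 : ℤ) ≤ U := by positivity
    linarith
  have hest1' : (4 : ℤ) ^ (A + S) * (2 * (m + U + 1)) + U + 8 ≤ 4 ^ m := by exact_mod_cast hest1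
  have hest2' : (9 : ℤ) * (S + 1) * U + 7 ≤ 4 ^ m := by exact_mod_cast hest2
  have hUz : (u : ℤ) ≤ U := by exact_mod_cast huU
  have hu1z : (1 : ℤ) ≤ u := by exact_mod_cast hu1
  have hpos4z : (0 : ℤ) < 4 ^ m := by positivity
  rcases lt_trichotomy r 0 with hneg | hzero | hpos
  · -- negative
    obtain ⟨s, hs⟩ : ∃ s, s = - r := ⟨_, rfl⟩
    have hs1 : 1 ≤ s := by omega
    have hs2 : s ≤ 2 * (m + U + 1) := by
      have := (abs_le.1 hrle).1
      linarith
    have hΔu := abs_le.1 (abs_Δ_le_self (u - 1))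
    have hcast : ((u - 1 : ℕ) : ℤ) = u - 1 := by rw [Nat.cast_sub hu1]; norm_num
    rw [hcast] at hΔu
    obtain ⟨i, i', hii, hiS, hEq2⟩ := hF fun i => 4 ^ (A + i) * h
    refine no_eqBlock (S := S) hL1 (fun i => 4 ^ (A + i) * h) (fun i => 4 ^ (A + i) * u - 1)
      (fun i => 7 * 4 ^ m - 4 ^ (A + i) * s - Δ (u - 1)) ?_ ?_ ?_ ?_ i i' hii hiS hEq2
    · intro i _
      have hP : 0 < 4 ^ (A + i) := by positivity
      have e1 : 4 ^ (A + i) * u - 1 = 4 ^ (A + i) * (u - 1) + (4 ^ (A + i) - 1) := by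
        obtain ⟨v, rfl⟩ : ∃ v, u = v + 1 := ⟨u - 1, by omega⟩
        rw [Nat.add_sub_cancel, mul_add]
        omega
      have e2 : Δ (4 ^ (A + i) * u - 1) = Δ (u - 1) := by
        rw [e1, Δ_add _ _ _ (by omega), Δ_pow_sub_one, add_zero]
      have e3 : ((4 ^ (A + i) * u - 1 : ℕ) : ℤ) = 4 ^ (A + i) * u - 1 := by
        rw [Nat.cast_sub (Nat.mul_pos hP hu1)]
        push_cast
        ring
      rw [hkeyj, e2, e3, hs]
      push_cast
      ring
    · intro i hi
      have h1 := hpowS i hi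
      have h2 : (4 : ℤ) ^ (A + i) * s ≤ 4 ^ (A + S) * (2 * (m + U + 1)) :=
        mul_le_mul h1 hs2 (by omega) (by positivity)
      linarith [hΔu.1, hΔu.2]
    · intro i hi
      have h1 := hpowA i
      have h2 : (4 : ℤ) ^ (A + i) * 1 ≤ 4 ^ (A + i) * s :=
        mul_le_mul_of_nonneg_left hs1 (by positivity)
      linarith [hΔu.1, hΔu.2]
    · intro i i' hii _
      right
      have h1 := hstep i i' hii
      have h2 : ((4 : ℤ) ^ (A + i') - 4 ^ (A + i)) * 1 ≤ (4 ^ (A + i') - 4 ^ (A + i)) * s :=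
        mul_le_mul_of_nonneg_left hs1 (by linarith)
      linarith
  · -- zero
    obtain ⟨W, c, d, ⟨w, hw⟩, hWc, hd1, hdu, hΔW⟩ := exists_multiple hu1
    obtain ⟨i, i', hii, hiS, hEq2⟩ := hF fun i =>
      (w * ∑ l ∈ Finset.range (9 * (i + 1)), 4 ^ (l * c)) * h
    have hd1z : (1 : ℤ) ≤ d := by exact_mod_cast hd1
    have hduz : (d : ℤ) ≤ u := by exact_mod_cast hdu
    refine no_eqBlock (S := S) hL1
      (fun i => (w * ∑ l ∈ Finset.range (9 * (i + 1)), 4 ^ (l * c)) * h)
      (fun i => W * ∑ l ∈ Finset.range (9 * (i + 1)), 4 ^ (l * c))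
      (fun i => 9 * (i + 1) * d) ?_ ?_ ?_ ?_ i i' hii hiS hEq2
    · intro i _
      rw [hkeyj, Δ_copies hWc, hΔW, hzero, hw]
      push_cast
      ring
    · intro i _
      positivity
    · intro i hi
      have h1 : ((i : ℤ) + 1) * d ≤ (S + 1) * U := by
        have : (i : ℤ) ≤ S := by exact_mod_cast hi
        exact mul_le_mul (by linarith) (by linarith) (by positivity) (by positivity)
      linarith
    · intro i i' hii _
      left
      have : (i : ℤ) + 1 ≤ i' := by exact_mod_cast hii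
      nlinarith
  · -- positive
    have hr2 : r ≤ 2 * (m + U + 1) := (abs_le.1 hrle).2
    have hr1 : 1 ≤ r := by omega
    have hΔu := abs_le.1 (abs_Δ_le_self u)
    obtain ⟨i, i', hii, hiS, hEq2⟩ := hF fun i => 4 ^ (A + i) * h
    refine no_eqBlock (S := S) hL1 (fun i => 4 ^ (A + i) * h) (fun i => 4 ^ (A + i) * u)
      (fun i => 4 ^ (A + i) * r - Δ u) ?_ ?_ ?_ ?_ i i' hii hiS hEq2
    · intro i _
      have hP : 0 < 4 ^ (A + i) := by positivity
      have e2 : Δ (4 ^ (A + i) * u) = Δ u := by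
        have := Δ_add (A + i) u 0 hP
        rwa [add_zero, Δ_zero, add_zero] at this
      rw [hkeyj, e2]
      push_cast
      ring
    · intro i _
      have h1 := hpowA i
      have h2 : (4 : ℤ) ^ (A + i) * 1 ≤ 4 ^ (A + i) * r :=
        mul_le_mul_of_nonneg_left hr1 (by positivity)
      linarith [hΔu.1, hΔu.2]
    · intro i hi
      have h1 := hpowS i hi
      have h2 : (4 : ℤ) ^ (A + i) * r ≤ 4 ^ (A + S) * (2 * (m + U + 1)) :=
        mul_le_mul h1 hr2 (by omega) (by positivity)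
      linarith [hΔu.1, hΔu.2]
    · intro i i' hii _
      left
      have h1 := hstep i i' hii
      have h2 : ((4 : ℤ) ^ (A + i') - 4 ^ (A + i)) * 1 ≤ (4 ^ (A + i') - 4 ^ (A + i)) * r :=
        mul_le_mul_of_nonneg_left hr1 (by linarith)
      linarith

/-! ## The words and the positions -/

/-- The morphism `1 → 12122121`, `2 → 2`. -/
def φ (w : List ℕ) : List ℕ := w.flatMap fun x => if x = 1 then [1, 2, 1, 2, 2, 1, 2, 1] else [x]

theorem φ_append (v w : List ℕ) : φ (v ++ w) = φ v ++ φ w := List.flatMap_append ..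

theorem φ_reverse (w : List ℕ) : φ w.reverse = (φ w).reverse := by
  induction w with
  | nil => rfl
  | cons x w ih =>
    rw [List.reverse_cons, φ_append, ih, show x :: w = [x] ++ w from rfl, φ_append,
      List.reverse_append]
    congr 1
    unfold φ
    by_cases hx : x = 1 <;> simp [hx]

theorem X_succ_eq_φ (n : ℕ) : X (n + 1) = φ (X n) := by
  induction n with
  | zero => rfl
  | succ n ih =>
    have e1 : X (n + 1 + 1) = X (n + 1) ++ X (n + 1) ++ (X (n + 1)).reverse ++
      (X (n + 1)).reverse ++ [2] := rfl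
    have e2 : X (n + 1) = X n ++ X n ++ (X n).reverse ++ (X n).reverse ++ [2] := rfl
    rw [e1, ih]
    conv_rhs => rw [← ih, e2]
    simp only [φ_append, φ_reverse]
    rfl

/-- The beginning up to the `i`-th letter `1`. -/
def B : ℕ → List ℕ
  | 0 => []
  | i + 1 => B i ++ (1 :: List.replicate (g i - 1) 2)

theorem φ_replicate (n : ℕ) : φ (List.replicate n 2) = List.replicate n 2 := by
  induction n with
  | zero => rfl
  | succ n ih =>
    rw [List.replicate_succ, show (2 :: List.replicate n 2 : List ℕ) = [2] ++ List.replicate n 2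
      from rfl, φ_append, ih]
    rfl

theorem φ_B (i : ℕ) : φ (B i) = B (4 * i) := by
  induction i with
  | zero => rfl
  | succ i ih =>
    have e1 : B (4 * (i + 1)) = B (4 * i) ++ (1 :: List.replicate (g (4 * i) - 1) 2) ++
        (1 :: List.replicate (g (4 * i + 1) - 1) 2) ++
        (1 :: List.replicate (g (4 * i + 2) - 1) 2) ++
        (1 :: List.replicate (g (4 * i + 3) - 1) 2) := rfl
    have e2 : B (i + 1) = B i ++ ([1] ++ List.replicate (g i - 1) 2) := rfl
    rw [e1, e2, φ_append, φ_append, φ_replicate, ih, g_zero, g_one, g_two, g_three]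
    simp [φ, List.replicate]

theorem X_eq_B (n : ℕ) : X n = B (4 ^ n) := by
  induction n with
  | zero =>
    have e : B (4 ^ 0) = [] ++ (1 :: List.replicate (g 0 - 1) 2) := rfl
    rw [e, show g 0 = 2 from g_zero 0]
    rfl
  | succ n ih => rw [X_succ_eq_φ, ih, φ_B, pow_succ, mul_comm]

theorem length_B (i : ℕ) : (B i).length = p i := by
  induction i with
  | zero => rfl
  | succ i ih =>
    have e : B (i + 1) = B i ++ (1 :: List.replicate (g i - 1) 2) := rfl
    rw [e, List.length_append, ih, p_succ, List.length_cons, List.length_replicate]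
    rcases g_cases i with h | h <;> omega

theorem getElem_B (N : ℕ) : ∀ (j : ℕ) (h : j < (B N).length), (B N)[j] = 1 ↔ ∃ i, p i = j := by
  induction N with
  | zero =>
    intro j h
    have e : (B 0).length = 0 := rfl
    omega
  | succ N ih =>
    intro j h
    have e : B (N + 1) = B N ++ (1 :: List.replicate (g N - 1) 2) := rfl
    have hlen := length_B N
    have hlen' := length_B (N + 1)
    have hps := p_succ N
    by_cases hj : j < (B N).length
    · rw [← ih j hj]
      simp only [e, List.getElem_append_left hj]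
    · push Not at hj
      have e3 : (B (N + 1))[j] = (1 :: List.replicate (g N - 1) 2)[j - (B N).length]'(by
          rw [List.length_cons, List.length_replicate]
          omega) := by
        simp only [e, List.getElem_append_right hj]
      rw [e3]
      rcases Nat.eq_or_lt_of_le hj with h1 | h1
      · have h2 : j - (B N).length = 0 := by omega
        simp only [h2, List.getElem_cons_zero, true_iff]
        exact ⟨N, by omega⟩
      · obtain ⟨t, ht⟩ : ∃ t, j - (B N).length = t + 1 := ⟨j - (B N).length - 1, by omega⟩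
        simp only [ht, List.getElem_cons_succ, List.getElem_replicate]
        constructor
        · intro h2
          omega
        · rintro ⟨i, hi⟩
          have h2 : N < i := p_strictMono.lt_iff_lt.1 (by omega)
          have h3 : i < N + 1 := p_strictMono.lt_iff_lt.1 (by omega)
          omega

theorem lt_length_X (n : ℕ) : n < (X n).length := by
  rw [X_eq_B, length_B]
  have h1 := two_mul_le_p (4 ^ n)
  have h2 : n < 4 ^ n := Nat.lt_pow_self (by norm_num)
  omega

theorem eq_one_iff {a : ℕ → ℕ} (ha : HasBeginnings a) (j : ℕ) : a j = 1 ↔ ∃ i, p i = j := by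
  rw [ha j j (lt_length_X j)]
  have h := getElem_B (4 ^ j) j (by rw [← X_eq_B]; exact lt_length_X j)
  rw [← h]
  simp only [X_eq_B]

theorem X_prefix {n n' : ℕ} (h : n ≤ n') : X n <+: X n' := by
  induction n', h using Nat.le_induction with
  | base => exact List.prefix_rfl
  | succ k _ ih =>
    refine ih.trans ⟨X k ++ (X k).reverse ++ (X k).reverse ++ [2], ?_⟩
    simp [X, List.append_assoc]

theorem X_getElem_eq {n n' i : ℕ} (h : i < (X n).length) (h' : i < (X n').length) :
    (X n)[i] = (X n')[i] := by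
  rcases le_total n n' with hle | hle
  · exact List.IsPrefix.getElem (X_prefix hle) h
  · exact (List.IsPrefix.getElem (X_prefix hle) h').symm

theorem existsUnique_hasBeginnings : ∃! a, HasBeginnings a := by
  refine ⟨fun i => (X i)[i]'(lt_length_X i), fun n i h => X_getElem_eq _ _, fun a ha => ?_⟩
  funext i
  exact ha i i (lt_length_X i)

/-! ## Automaticity -/

theorem few_of_finite_kernel {k : ℕ} {a : ℕ → ℕ} (ha : HasBeginnings a)
    (hfin : IsAutomatic k a) : ∃ S, ∀ e, Few (k ^ e) S := by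
  classical
  obtain ⟨K, hK⟩ : ∃ K : Finset (ℕ → ℕ), ∀ b, b ∈ K ↔ b ∈ kernel k a :=
    ⟨hfin.toFinset, fun b => hfin.mem_toFinset⟩
  refine ⟨2 ^ K.card, fun e nn => ?_⟩
  have hmaps : ∀ i ∈ Finset.range (2 ^ K.card + 1), (K.filter fun b => b (nn i) = 1) ∈
      K.powerset := fun i _ => Finset.mem_powerset.2 (Finset.filter_subset _ _)
  obtain ⟨i, hi, i', hi', hne, heq⟩ := Finset.exists_ne_map_eq_of_card_lt_of_maps_to
    (by rw [Finset.card_powerset, Finset.card_range]; omega) hmaps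
  wlog hlt : i < i' generalizing i i'
  · exact this i' hi' i hi hne.symm heq.symm (by omega)
  rw [Finset.mem_range] at hi hi'
  refine ⟨i, i', hlt, by omega, fun j hj => ?_⟩
  rw [← eq_one_iff ha, ← eq_one_iff ha]
  have hmem : (fun n => a (k ^ e * n + j)) ∈ K := (hK _).2 ⟨e, j, hj, rfl⟩
  have h1 : ((fun n => a (k ^ e * n + j)) ∈ K.filter fun b => b (nn i) = 1) ↔
      ((fun n => a (k ^ e * n + j)) ∈ K.filter fun b => b (nn i') = 1) := by rw [heq]
  simp only [Finset.mem_filter, hmem, true_and] at h1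
  rw [mul_comm (nn i), mul_comm (nn i')]
  exact h1

theorem not_isAutomatic {k : ℕ} (hk : 2 ≤ k) {a : ℕ → ℕ} (ha : HasBeginnings a) :
    ¬ IsAutomatic k a := by
  intro hfin
  obtain ⟨S, hS⟩ := few_of_finite_kernel ha hfin
  obtain ⟨m₀, hm⟩ := main_lemma S
  obtain ⟨e, he⟩ : ∃ e, e = 100 * 4 ^ m₀ := ⟨_, rfl⟩
  have h1 : 100 * 4 ^ m₀ < k ^ e := by
    rw [← he]
    exact Nat.lt_pow_self (by omega)
  obtain ⟨Q, hQ⟩ : ∃ Q, Q = k ^ e / 100 := ⟨_, rfl⟩
  have h2 : 4 ^ m₀ ≤ Q := by omega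
  have hQ0 : Q ≠ 0 := by
    have : 0 < 4 ^ m₀ := by positivity
    omega
  have h3 : 4 ^ (Nat.log 4 Q) ≤ Q := Nat.pow_log_le_self 4 hQ0
  have h4 : Q < 4 ^ (Nat.log 4 Q + 1) := Nat.lt_pow_succ_log_self (by norm_num) Q
  have h5 : m₀ ≤ Nat.log 4 Q := Nat.le_log_of_pow_le (by norm_num) h2
  rw [pow_succ] at h4
  exact hm _ h5 (k ^ e) (by omega) (by omega) (hS e)

/-- There is exactly one sequence having all the words as beginnings, and it is not
`k`-automatic for any `k ≥ 2`. -/
theorem result : (∃! a, HasBeginnings a) ∧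
    ∀ a, HasBeginnings a → ∀ k, 2 ≤ k → ¬ IsAutomatic k a :=
  ⟨existsUnique_hasBeginnings, fun _ ha _ hk => not_isAutomatic hk ha⟩

end Pool.Agent.Results.MP_ad6ded_lc.NotAutomatic
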